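import Mathlib
import Pool.Agent.Lib_helper15.Quad.Main

/-!
# The Liouville function at the values of an arbitrary quadratic polynomial

For every quadratic polynomial `f` with integer coefficients which is not of the form `c * g^2` and
every finite nonempty set `S` of integers, both signs of `λ(∏_{s ∈ S} f(n + s))` occur in every
interval `[x, C x]`, `x ≥ 1`, with `C` depending only on `f` and `S`.  The same holds for every
completely multiplicative function with values `±1` which takes the value `-1` at some prime
`P ≡ 1 mod N`, for every `N`.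
-/

namespace Pool.Agent.Results.MP_892e4c_nt.AllQuadratics

open Polynomial

/-- The Liouville function extended to the integers: `λ(0) = 0` and, for `m ≠ 0`,
`λ(m) = (-1)^Ω(|m|)`, where `Ω` counts prime factors with multiplicity. -/
def liouville (m : ℤ) : ℤ :=
  if m = 0 then 0 else (-1) ^ (ArithmeticFunction.cardFactors m.natAbs)

/-- `h` is completely multiplicative on the nonzero integers, with values `±1` there, and for every
`N ≥ 1` there is a prime `P ≡ 1 (mod N)` with `h(P) = -1`. -/
structure SignFunction (h : ℤ → ℤ) : Prop where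
  mul : ∀ m n : ℤ, m ≠ 0 → n ≠ 0 → h (m * n) = h m * h n
  val : ∀ m : ℤ, m ≠ 0 → h m = 1 ∨ h m = -1
  prime : ∀ N : ℕ, 0 < N → ∃ P : ℕ, P.Prime ∧ P ≡ 1 [MOD N] ∧ h P = -1

/-- The Liouville function is a `SignFunction`; and for every `SignFunction` `h`, every `f ∈ ℤ[X]` of
degree two which is not of the form `c g²`, and every finite nonempty set `S` of integers, there is `C`
such that for all `x ≥ 1` both values `1` and `-1` are taken by `h(∏_{s ∈ S} f(n + s))` for integers
`n ∈ [x, C x]`. -/
theorem result :
    SignFunction liouville ∧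
    ∀ h : ℤ → ℤ, SignFunction h →
      ∀ f : ℤ[X], f.natDegree = 2 → (¬ ∃ (c : ℤ) (g : ℤ[X]), f = C c * g ^ 2) →
        ∀ S : Finset ℤ, S.Nonempty →
          ∃ K : ℕ, ∀ x : ℕ, 1 ≤ x →
            (∃ n : ℕ, x ≤ n ∧ n ≤ K * x ∧ h (∏ s ∈ S, f.eval ((n : ℤ) + s)) = 1) ∧
            (∃ n : ℕ, x ≤ n ∧ n ≤ K * x ∧ h (∏ s ∈ S, f.eval ((n : ℤ) + s)) = -1) := by
  constructor
  · refine ⟨?_, ?_, ?_⟩
    · intro m n hm hn
      have hmn : m * n ≠ 0 := mul_ne_zero hm hn
      rw [liouville, liouville, liouville, if_neg hm, if_neg hn, if_neg hmn, Int.natAbs_mul,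
        ArithmeticFunction.cardFactors_mul (by simpa using hm) (by simpa using hn), pow_add]
    · intro m hm
      rw [liouville, if_neg hm]
      exact neg_one_pow_eq_or ℤ _
    · intro N hN
      obtain ⟨P, hP, -, hmod⟩ := Nat.exists_prime_gt_modEq_one (k := N) 1 (by omega)
      refine ⟨P, hP, hmod, ?_⟩
      have : (P : ℤ) ≠ 0 := by exact_mod_cast hP.ne_zero
      rw [liouville, if_neg this, Int.natAbs_natCast,
        ArithmeticFunction.cardFactors_apply_prime hP]
      norm_num
  · intro h hh f hdeg hf S hS
    have hh' : Pool.Agent.H15Quad.Mult h := ⟨hh.mul, hh.val, hh.prime⟩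
    set a : ℤ := f.coeff 2 with ha
    set b : ℤ := f.coeff 1 with hb
    set c : ℤ := f.coeff 0 with hc
    have ha0 : a ≠ 0 := by
      rw [ha, ← hdeg, coeff_natDegree, Ne, leadingCoeff_eq_zero]
      rintro rfl
      simp at hdeg
    have hform : f = C a * X ^ 2 + C b * X + C c := by
      conv_lhs => rw [f.as_sum_range_C_mul_X_pow, hdeg]
      rw [Finset.sum_range_succ, Finset.sum_range_succ, Finset.sum_range_one]
      ring
    have hD : b ^ 2 - 4 * (a * c) ≠ 0 := by
      intro h0
      apply hf
      obtain ⟨k, v, u, h1, h2, h3⟩ := Pool.Agent.H15Quad.exists_square ha0 h0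
      refine ⟨k, C v * X + C u, ?_⟩
      rw [hform, h1, h2, h3]
      simp only [map_mul, map_pow, map_ofNat]
      ring
    have heval : ∀ n : ℤ, f.eval n = Pool.Agent.H15Quad.qv a b c n := by
      intro n
      rw [hform]
      simp [Pool.Agent.H15Quad.qv]
    simp only [heval]
    exact Pool.Agent.H15Quad.shift_int hh' ha0 hD S hS

end Pool.Agent.Results.MP_892e4c_nt.AllQuadratics
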